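import Mathlib

/-!
# MP_fc15dd_lc: constantly many nonterminals and forbidding rules suffice

Every language generated by a type-0 grammar is generated by a generalized one-sided forbidding
grammar of degree (2, 1) with 17 nonterminals in which at most 16 rules have a nonempty forbidding
context.
-/

set_option autoImplicit false

namespace Pool.Agent.Results.MP_fc15dd_lc.ConstantBounds

open List
open Relation (ReflTransGen)

/-! ### Definitions -/

/-- A type-0 grammar: each left-hand side contains a nonterminal. -/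
structure Type0 (T : Type) where
  N : Type
  fin : Finite N
  S : N
  P : Set (List (N ⊕ T) × List (N ⊕ T))
  finP : P.Finite
  hP : ∀ r ∈ P, ∃ A, Sum.inl A ∈ r.1

variable {T : Type}

def Type0.Step (G : Type0 T) (X Y : List (G.N ⊕ T)) : Prop :=
  ∃ r ∈ G.P, ∃ u v, X = u ++ r.1 ++ v ∧ Y = u ++ r.2 ++ v

def Type0.lang (G : Type0 T) : Set (List T) :=
  {w | ReflTransGen G.Step [Sum.inl G.S] (w.map Sum.inr)}

/-- The recursively enumerable languages over `T`, given by type-0 grammars. -/
def RE (T : Type) : Set (Set (List T)) := {L | ∃ G : Type0 T, L = G.lang}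

/-- A generalized one-sided forbidding grammar. -/
structure OneSided (T : Type) where
  N : Type
  fin : Finite N
  S : N
  PL : Set (N × List (N ⊕ T) × Finset (List N))
  PR : Set (N × List (N ⊕ T) × Finset (List N))
  finL : PL.Finite
  finR : PR.Finite

/-- no string of `F` is a substring of `u` -/
def Free {N : Type} (F : Finset (List N)) (u : List (N ⊕ T)) : Prop :=
  ∀ f ∈ F, ¬ f.map Sum.inl <:+: u

def OneSided.Step (G : OneSided T) (X Y : List (G.N ⊕ T)) : Prop :=
  ∃ A x F u v, X = u ++ Sum.inl A :: v ∧ Y = u ++ x ++ v ∧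
    (((A, x, F) ∈ G.PL ∧ Free F u) ∨ ((A, x, F) ∈ G.PR ∧ Free F v))

def OneSided.lang (G : OneSided T) : Set (List T) :=
  {w | ReflTransGen G.Step [Sum.inl G.S] (w.map Sum.inr)}

/-- degree `(m, n)` -/
def OneSided.Degree (G : OneSided T) (m n : ℕ) : Prop :=
  (∀ r ∈ G.PL, ∀ f ∈ r.2.2, f.length ≤ m) ∧ ∀ r ∈ G.PR, ∀ f ∈ r.2.2, f.length ≤ n

/-! ### Tiles -/

section

variable (G : Type0 T)

/-- the symbols, with the separator `none` -/
abbrev Sg : Type := Option (G.N ⊕ T)

def tiles : Set (List (Sg G) × List (Sg G)) :=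
  (Set.range fun s : Sg G => ([s], [s])) ∪
    (fun r => (r.1.reverse.map some, r.2.reverse.map some)) '' G.P

inductive TS : List (Sg G) → List (Sg G) → Prop
  | nil : TS [] []
  | app {U V : List (Sg G)} {t : List (Sg G) × List (Sg G)} (h : TS U V) (ht : t ∈ tiles G) :
      TS (U ++ t.1) (V ++ t.2)

theorem ts_count {U V : List (Sg G)} (h : TS G U V) :
    U.countP (fun s => s.isNone) = V.countP (fun s => s.isNone) := by
  induction h with
  | nil => rfl
  | app _ ht ih =>
    rw [countP_append, countP_append, ih]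
    congr 1
    rcases ht with ⟨s, rfl⟩ | ⟨r, _, rfl⟩
    · rfl
    · have h1 : ∀ l : List (G.N ⊕ T), (l.map some).countP (fun s : Sg G => s.isNone) = 0 := by
        intro l
        rw [countP_eq_zero]
        intro a ha
        obtain ⟨b, _, rfl⟩ := mem_map.1 ha
        simp
      rw [h1, h1]

theorem peel {a v : List (G.N ⊕ T)} {r Z : List (Sg G)}
    (h : a.map some ++ none :: r = v.map some ++ Z) :
    ∃ a', a = v ++ a' ∧ Z = a'.map some ++ none :: r := by
  induction v generalizing a with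
  | nil => exact ⟨a, rfl, by simpa using h.symm⟩
  | cons s v ih =>
    cases a with
    | nil => simp at h
    | cons b a =>
      rw [map_cons, map_cons, cons_append, cons_append, cons.injEq, Option.some.injEq] at h
      obtain ⟨a', rfl, h2⟩ := ih h.2
      exact ⟨a', by rw [h.1]; rfl, h2⟩

theorem ts_sound {w : List (G.N ⊕ T)} {U V : List (Sg G)} (h : TS G U V) :
    ∀ Z, w.reverse.map some ++ none :: U = V ++ Z →
      ∃ a b : List (G.N ⊕ T), Z = a.map some ++ none :: b.map some ∧
        ReflTransGen G.Step (b ++ a).reverse w := by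
  induction h with
  | nil =>
    intro Z hZ
    exact ⟨w.reverse, [], by simpa using hZ.symm, by simpa using ReflTransGen.refl⟩
  | @app U V t h ht ih =>
    intro Z' hZ'
    have hc := ts_count G h
    have h1 : (w.reverse.map some ++ none :: U) ++ t.1 = V ++ (t.2 ++ Z') := by
      simpa using hZ'
    obtain ⟨Z, hZ, hZ2⟩ : ∃ Z, w.reverse.map some ++ none :: U = V ++ Z ∧ Z ++ t.1 = t.2 ++ Z' := by
      rcases List.append_eq_append_iff.1 h1 with ⟨as, g1, g2⟩ | ⟨bs, g1, g2⟩
      · exfalso
        have := congrArg (List.countP fun s : Sg G => s.isNone) g1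
        rw [countP_append, countP_append, countP_cons] at this
        simp only [Option.isNone_none, if_true] at this
        omega
      · exact ⟨bs, g1, g2.symm⟩
    obtain ⟨a, b, rfl, hd⟩ := ih Z hZ
    rcases ht with ⟨s, rfl⟩ | ⟨r, hr, rfl⟩
    · cases s with
      | none =>
        cases a with
        | nil =>
          simp only [map_nil, nil_append, cons_append, cons.injEq, true_and] at hZ2
          exact ⟨b, [], by rw [← hZ2]; simp, by simpa using hd⟩
        | cons c a => simp at hZ2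
      | some c =>
        cases a with
        | nil => simp at hZ2
        | cons c' a =>
          simp only [map_cons, cons_append, nil_append, cons.injEq, Option.some.injEq] at hZ2
          obtain ⟨rfl, h3⟩ := hZ2
          refine ⟨a, b ++ [c'], by rw [← h3]; simp, by simpa using hd⟩
    · have h3 : a.map some ++ none :: (b.map some ++ r.1.reverse.map some) =
          r.2.reverse.map some ++ Z' := by
        simpa using hZ2
      obtain ⟨a', rfl, rfl⟩ := peel G h3
      refine ⟨a', b ++ r.1.reverse, by simp, ?_⟩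
      refine ReflTransGen.head ⟨r, hr, a'.reverse, b.reverse, by simp, rfl⟩ ?_
      simpa using hd

theorem ts_copy {U V : List (Sg G)} (h : TS G U V) (l : List (Sg G)) :
    TS G (U ++ l) (V ++ l) := by
  induction l using List.reverseRecOn with
  | nil => simpa using h
  | append_singleton l s ih =>
    have := ih.app (t := ([s], [s])) (Or.inl ⟨s, rfl⟩)
    simpa using this

theorem ts_complete {w x : List (G.N ⊕ T)} (h : ReflTransGen G.Step x w) :
    ∃ U V, TS G U V ∧ w.reverse.map some ++ none :: U = V ++ (x.reverse.map some ++ [none]) := by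
  induction h using ReflTransGen.head_induction_on with
  | refl => exact ⟨[], [], .nil, by simp⟩
  | head h1 _ ih =>
    obtain ⟨U, V, hts, hUV⟩ := ih
    obtain ⟨r, hr, u, v, rfl, rfl⟩ := h1
    have h2 := (ts_copy G hts (v.reverse.map some)).app
      (t := (r.1.reverse.map some, r.2.reverse.map some)) (Or.inr ⟨r, hr, rfl⟩)
    have h3 := ts_copy G h2 (u.reverse.map some ++ [none])
    refine ⟨_, _, h3, ?_⟩
    have h4 : w.reverse.map some ++ none :: (U ++ v.reverse.map some ++ r.1.reverse.map some ++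
        (u.reverse.map some ++ [none])) = (w.reverse.map some ++ none :: U) ++
        (v.reverse.map some ++ r.1.reverse.map some ++ (u.reverse.map some ++ [none])) := by
      simp
    dsimp only
    rw [h4, hUV]
    simp

/-! ### The code -/

variable [Finite T]

instance : Finite (Sg G) := by
  have := G.fin
  infer_instance

noncomputable def idx (s : Sg G) : ℕ := (Finite.equivFin (Sg G) s).val

theorem idx_inj {s t : Sg G} (h : idx G s = idx G t) : s = t :=
  (Finite.equivFin (Sg G)).injective (Fin.ext h)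

noncomputable def code (l : List (Sg G)) : List Bool :=
  l.flatMap fun s => replicate (idx G s) true ++ [false]

theorem code_append (l l' : List (Sg G)) : code G (l ++ l') = code G l ++ code G l' := by
  simp [code]

theorem code_cons (s : Sg G) (l : List (Sg G)) :
    code G (s :: l) = replicate (idx G s) true ++ false :: code G l := by
  simp [code]

omit [Finite T] in
theorem rep_inj : ∀ (m n : ℕ) (A B : List Bool),
    replicate m true ++ false :: A = replicate n true ++ false :: B → m = n ∧ A = B := by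
  intro m
  induction m with
  | zero =>
    intro n A B h
    cases n with
    | zero => simpa using h
    | succ n => simp [replicate_succ] at h
  | succ m ih =>
    intro n A B h
    cases n with
    | zero => simp [replicate_succ] at h
    | succ n =>
      simp only [replicate_succ, cons_append, cons.injEq, true_and] at h
      obtain ⟨h1, h2⟩ := ih n A B h
      exact ⟨by rw [h1], h2⟩

theorem code_inj : ∀ l l' : List (Sg G), code G l = code G l' → l = l' := by
  intro l
  induction l with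
  | nil =>
    intro l' h
    cases l' with
    | nil => rfl
    | cons s l' => rw [code_cons] at h; simp [code] at h
  | cons s l ih =>
    intro l' h
    cases l' with
    | nil => rw [code_cons] at h; simp [code] at h
    | cons s' l' =>
      rw [code_cons, code_cons] at h
      obtain ⟨h1, h2⟩ := rep_inj _ _ _ _ h
      rw [idx_inj G h1, ih l' h2]

/-- the language by tiles -/
theorem mem_lang_iff (w : List T) : w ∈ G.lang ↔ ∃ U V, TS G U V ∧
    code G ((w.reverse.map Sum.inr).map some ++ none :: U) =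
      code G (V ++ [some (Sum.inl G.S), none]) := by
  constructor
  · intro h
    obtain ⟨U, V, h1, h2⟩ := ts_complete G h
    refine ⟨U, V, h1, ?_⟩
    rw [← map_reverse] at h2
    rw [h2]
    rfl
  · rintro ⟨U, V, h1, h2⟩
    have h3 := code_inj G _ _ h2
    rw [map_reverse] at h3
    obtain ⟨a, b, h4, h5⟩ := ts_sound G h1 _ h3
    rcases a with _ | ⟨a, _ | ⟨a', a''⟩⟩
    · simp at h4
    · simp only [map_cons, map_nil, cons_append, nil_append, cons.injEq, Option.some.injEq,
        true_and] at h4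
      obtain ⟨rfl, h6⟩ := h4
      have h7 : b = [] := by simpa using h6.symm
      subst h7
      exact h5
    · simp at h4

end

/-! ### The one-sided forbidding grammar -/

/-- The 17 nonterminals. `a i p`, `b i p` are the letters with bit `i`, marked if `p = true`. -/
inductive NT
  | S | S1 | S2 | L | C | R
  | a (i p : Bool)
  | b (i p : Bool)
  | M
  | Mi (i : Bool)
  deriving DecidableEq, Fintype

open NT

def fA (s : Bool × Bool) : NT ⊕ T := .inl (a s.1 s.2)
def fB (s : Bool × Bool) : NT ⊕ T := .inl (b s.1 s.2)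
def un (l : List Bool) : List (Bool × Bool) := l.map fun i => (i, false)

/-- forbidden for the marking of letters in component `x` -/
def FP : Finset (List NT) := {[S1], [Mi false], [Mi true]}
/-- forbidden for the deletion of marked letters -/
def FD : Finset (List NT) := {[S1], [M]}
/-- forbidden for the deletion of `L`, `C`, `R` -/
def FE : Finset (List NT) := {[S1], [S2], [M], [Mi false], [Mi true]}
/-- forbidden for `M → ε` -/
def FM : Finset (List NT) := {[S2]} ∪
  (Finset.univ.image fun s : Bool × Bool => [a s.1 s.2]) ∪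
  (Finset.univ.image fun s : Bool × Bool => [b s.1 s.2])
/-- forbidden for `Mi i → M` -/
def FQ : Finset (List NT) :=
  (Finset.univ.image fun s : Bool => [a s true]) ∪ (Finset.univ.image fun s : Bool => [b s true])
/-- forbidden for `M → Mi i` -/
def FI (i : Bool) : Finset (List NT) :=
  {[S2], [a false false, C], [a true false, C], [C, b false false], [C, b true false], [L, C],
    [C, R], [a (!i) true], [b (!i) true]} ∪
  (Finset.univ.image fun s : Bool × Bool × Bool => [a s.1 true, a s.2.1 s.2.2]) ∪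
  (Finset.univ.image fun s : Bool × Bool × Bool => [b s.1 s.2.1, b s.2.2 true])

/-- the rules with nonempty forbidding context and right context -/
def frl : List (NT × List (NT ⊕ T) × Finset (List NT)) :=
  [(a false false, [.inl (a false true)], FP), (a true false, [.inl (a true true)], FP),
   (b false false, [.inl (b false true)], FP), (b true false, [.inl (b true true)], FP),
   (a false true, [], FD), (a true true, [], FD), (b false true, [], FD), (b true true, [], FD),
   (L, [], FE), (C, [], FE), (R, [], FE)]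

/-- the left forbidding rules -/
def fll : List (NT × List (NT ⊕ T) × Finset (List NT)) :=
  [(M, [.inl (Mi false)], FI false), (M, [.inl (Mi true)], FI true),
   (Mi false, [.inl M], FQ), (Mi true, [.inl M], FQ), (M, [], FM)]

section

variable [Finite T] (G : Type0 T)

noncomputable def lc (l : List (Sg G)) : List (NT ⊕ T) := (un (code G l)).map fA
noncomputable def rc (l : List (Sg G)) : List (NT ⊕ T) := (un (code G l).reverse).map fB

/-- the context-free rules -/
def CFr : Set (NT × List (NT ⊕ T)) :=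
  {(S, [.inl L, .inl S1])} ∪
  (Set.range fun x : T => (S1, lc G [some (.inr x)] ++ [.inl S1, .inr x])) ∪
  {(S1, lc G [none] ++ [.inl S2, .inl R, .inl M])} ∪
  (fun t : List (Sg G) × List (Sg G) => (S2, lc G t.1 ++ .inl S2 :: rc G t.2)) '' tiles G ∪
  {(S2, .inl C :: rc G [some (.inl G.S), none])}

theorem tiles_finite : (tiles G).Finite := by
  exact (Set.finite_range _).union (G.finP.image _)

theorem cfr_finite : (CFr G).Finite :=
  ((((Set.finite_singleton _).union (Set.finite_range _)).union (Set.finite_singleton _)).union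
    ((tiles_finite G).image _)).union (Set.finite_singleton _)

noncomputable def GG : OneSided T where
  N := NT
  fin := inferInstance
  S := S
  PL := {r | r ∈ fll}
  PR := (fun r : NT × List (NT ⊕ T) => (r.1, r.2, ∅)) '' CFr G ∪ {r | r ∈ frl}
  finL := List.finite_toSet _
  finR := ((cfr_finite G).image _).union (List.finite_toSet _)

/-! forms -/

def F3 (x : List (Bool × Bool)) (c : NT) (y : List (Bool × Bool)) (m : NT) (w : List T) :
    List (NT ⊕ T) :=
  .inl L :: (x.map fA ++ .inl c :: (y.map fB ++ .inl R :: .inl m :: w.map .inr))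

omit [Finite T] in
theorem app_split {α : Type} {p q u v : List α} {s : α} (h : p ++ q = u ++ s :: v) :
    (∃ p2, p = u ++ s :: p2 ∧ v = p2 ++ q) ∨ (∃ q1, u = p ++ q1 ∧ q = q1 ++ s :: v) := by
  rcases List.append_eq_append_iff.1 h with ⟨as, h1, h2⟩ | ⟨bs, h1, h2⟩
  · exact Or.inr ⟨as, h1, h2⟩
  · cases bs with
    | nil =>
      rw [append_nil] at h1
      exact Or.inr ⟨[], by rw [h1, append_nil], by simpa using h2.symm⟩
    | cons r bs =>
      rw [cons_append, cons.injEq] at h2
      exact Or.inl ⟨bs, by rw [h1, h2.1], h2.2⟩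

omit [Finite T] in
theorem locate {x y : List (Bool × Bool)} {c m Z : NT} {w : List T} {u v : List (NT ⊕ T)}
    (h : F3 x c y m w = u ++ .inl Z :: v) :
    (Z = L ∧ u = [] ∧ v = x.map fA ++ .inl c :: (y.map fB ++ .inl R :: .inl m :: w.map .inr)) ∨
    (∃ x1 s x2, x = x1 ++ s :: x2 ∧ Z = a s.1 s.2 ∧ u = .inl L :: x1.map fA ∧
      v = x2.map fA ++ .inl c :: (y.map fB ++ .inl R :: .inl m :: w.map .inr)) ∨
    (Z = c ∧ u = .inl L :: x.map fA ∧ v = y.map fB ++ .inl R :: .inl m :: w.map .inr) ∨
    (∃ y1 s y2, y = y1 ++ s :: y2 ∧ Z = b s.1 s.2 ∧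
      u = .inl L :: (x.map fA ++ .inl c :: y1.map fB) ∧
      v = y2.map fB ++ .inl R :: .inl m :: w.map .inr) ∨
    (Z = R ∧ u = .inl L :: (x.map fA ++ .inl c :: y.map fB) ∧ v = .inl m :: w.map .inr) ∨
    (Z = m ∧ u = .inl L :: (x.map fA ++ .inl c :: (y.map fB ++ [.inl R])) ∧
      v = w.map .inr) := by
  unfold F3 at h
  cases u with
  | nil =>
    rw [nil_append, cons.injEq, Sum.inl.injEq] at h
    exact Or.inl ⟨h.1.symm, rfl, h.2.symm⟩
  | cons r u =>
    rw [cons_append, cons.injEq] at h
    obtain ⟨rfl, h⟩ := h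
    right
    rcases app_split h with ⟨p2, h1, rfl⟩ | ⟨q1, rfl, h1⟩
    · left
      obtain ⟨x1, x', rfl, rfl, h2⟩ := List.map_eq_append_iff.1 h1
      obtain ⟨s, x2, rfl, h3, rfl⟩ := List.map_eq_cons_iff.1 h2
      simp only [fA, Sum.inl.injEq] at h3
      exact ⟨x1, s, x2, rfl, h3.symm, rfl, rfl⟩
    · right
      cases q1 with
      | nil =>
        rw [nil_append, cons.injEq, Sum.inl.injEq] at h1
        exact Or.inl ⟨h1.1.symm, by simp, h1.2.symm⟩
      | cons r q1 =>
        rw [cons_append, cons.injEq] at h1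
        obtain ⟨rfl, h1⟩ := h1
        right
        rcases app_split h1 with ⟨p2, h2, rfl⟩ | ⟨q2, rfl, h2⟩
        · left
          obtain ⟨y1, y', rfl, rfl, h3⟩ := List.map_eq_append_iff.1 h2
          obtain ⟨s, y2, rfl, h4, rfl⟩ := List.map_eq_cons_iff.1 h3
          simp only [fB, Sum.inl.injEq] at h4
          exact ⟨y1, s, y2, rfl, h4.symm, rfl, rfl⟩
        · right
          rcases q2 with _ | ⟨r, _ | ⟨r', q2⟩⟩
          · rw [nil_append, cons.injEq, Sum.inl.injEq] at h2
            exact Or.inl ⟨h2.1.symm, by simp, h2.2.symm⟩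
          · simp only [cons_append, nil_append, cons.injEq, Sum.inl.injEq] at h2
            obtain ⟨rfl, rfl, rfl⟩ := h2
            exact Or.inr ⟨rfl, rfl, rfl⟩
          · exfalso
            simp only [cons_append, cons.injEq] at h2
            have : (.inl Z : NT ⊕ T) ∈ w.map .inr := by rw [h2.2.2]; simp
            simp at this

inductive Ok : List (NT ⊕ T) → Prop
  | s0 : Ok [.inl S]
  | s1 (w : List T) :
      Ok (.inl L :: (lc G ((w.reverse.map Sum.inr).map some) ++ .inl S1 :: w.map .inr))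
  | s2 (x y : List (Bool × Bool)) (w : List T) (U V : List (Sg G)) (h : TS G U V)
      (hx : x.map Prod.fst = code G ((w.reverse.map Sum.inr).map some ++ none :: U))
      (hy : y.map Prod.fst = (code G V).reverse) : Ok (F3 x S2 y M w)
  | s3 (x y : List (Bool × Bool)) (w : List T)
      (h : x.map Prod.fst = (y.map Prod.fst).reverse → w ∈ G.lang) : Ok (F3 x C y M w)
  | s3i (x y : List Bool) (i ox oy : Bool) (w : List T) (h : x = y.reverse → w ∈ G.lang) :
      Ok (F3 (un x ++ if ox then [(i, true)] else []) C ((if oy then [(i, true)] else []) ++ un y)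
        (Mi i) w)
  | s4 (l : List (NT ⊕ T)) (w : List T) (hl : l <+ [.inl L, .inl C, .inl R])
      (h : w ∈ G.lang) : Ok (l ++ w.map .inr)

omit [Finite T] in
theorem sing {α : Type} {s : α} {l : List α} : [s] <:+: l ↔ s ∈ l := by
  constructor
  · rintro ⟨p, q, rfl⟩; simp
  · intro h
    obtain ⟨p, q, rfl⟩ := List.append_of_mem h
    exact ⟨p, q, by simp⟩

omit [Finite T] in
theorem free_sing {F : Finset (List NT)} {u : List (NT ⊕ T)} (h : Free F u) {s : NT}
    (hs : [s] ∈ F) : (.inl s : NT ⊕ T) ∉ u := fun hm => h _ hs (sing.2 hm)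

omit [Finite T] in
theorem rule_fll {A : NT} {x : List (NT ⊕ T)} {F : Finset (List NT)}
    (h : (A, x, F) ∈ (fll : List (NT × List (NT ⊕ T) × Finset (List NT)))) :
    (∃ i, A = M ∧ x = [.inl (Mi i)] ∧ F = FI i) ∨ (∃ i, A = Mi i ∧ x = [.inl M] ∧ F = FQ) ∨
      (A = M ∧ x = [] ∧ F = FM) := by
  simp only [fll, mem_cons, Prod.mk.injEq, not_mem_nil, or_false] at h
  rcases h with h | h | h | h | h
  · exact Or.inl ⟨false, h⟩
  · exact Or.inl ⟨true, h⟩
  · exact Or.inr (Or.inl ⟨false, h⟩)
  · exact Or.inr (Or.inl ⟨true, h⟩)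
  · exact Or.inr (Or.inr h)

omit [Finite T] in
theorem rule_frl {A : NT} {x : List (NT ⊕ T)} {F : Finset (List NT)}
    (h : (A, x, F) ∈ (frl : List (NT × List (NT ⊕ T) × Finset (List NT)))) :
    (∃ i, A = a i false ∧ x = [.inl (a i true)] ∧ F = FP) ∨
    (∃ i, A = b i false ∧ x = [.inl (b i true)] ∧ F = FP) ∨
    (∃ i, A = a i true ∧ x = [] ∧ F = FD) ∨ (∃ i, A = b i true ∧ x = [] ∧ F = FD) ∨
    ((A = L ∨ A = C ∨ A = R) ∧ x = [] ∧ F = FE) := by
  simp only [frl, mem_cons, Prod.mk.injEq, not_mem_nil, or_false] at h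
  rcases h with h | h | h | h | h | h | h | h | h | h | h
  · exact Or.inl ⟨false, h⟩
  · exact Or.inl ⟨true, h⟩
  · exact Or.inr (Or.inl ⟨false, h⟩)
  · exact Or.inr (Or.inl ⟨true, h⟩)
  · exact Or.inr (Or.inr (Or.inl ⟨false, h⟩))
  · exact Or.inr (Or.inr (Or.inl ⟨true, h⟩))
  · exact Or.inr (Or.inr (Or.inr (Or.inl ⟨false, h⟩)))
  · exact Or.inr (Or.inr (Or.inr (Or.inl ⟨true, h⟩)))
  · exact Or.inr (Or.inr (Or.inr (Or.inr ⟨Or.inl h.1, h.2⟩)))
  · exact Or.inr (Or.inr (Or.inr (Or.inr ⟨Or.inr (Or.inl h.1), h.2⟩)))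
  · exact Or.inr (Or.inr (Or.inr (Or.inr ⟨Or.inr (Or.inr h.1), h.2⟩)))

theorem rule_cf {A : NT} {x : List (NT ⊕ T)} (h : (A, x) ∈ CFr G) :
    (A = S ∧ x = [.inl L, .inl S1]) ∨
    (∃ y : T, A = S1 ∧ x = lc G [some (.inr y)] ++ [.inl S1, .inr y]) ∨
    (A = S1 ∧ x = lc G [none] ++ [.inl S2, .inl R, .inl M]) ∨
    (∃ t ∈ tiles G, A = S2 ∧ x = lc G t.1 ++ .inl S2 :: rc G t.2) ∨
    (A = S2 ∧ x = .inl C :: rc G [some (.inl G.S), none]) := by
  rcases h with (((h | ⟨y, h⟩) | h) | ⟨t, ht, h⟩) | h
  · simp only [Set.mem_singleton_iff, Prod.mk.injEq] at h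
    exact Or.inl h
  · simp only [Prod.mk.injEq] at h
    exact Or.inr (Or.inl ⟨y, h.1.symm, h.2.symm⟩)
  · simp only [Set.mem_singleton_iff, Prod.mk.injEq] at h
    exact Or.inr (Or.inr (Or.inl h))
  · simp only [Prod.mk.injEq] at h
    exact Or.inr (Or.inr (Or.inr (Or.inl ⟨t, ht, h.1.symm, h.2.symm⟩)))
  · simp only [Set.mem_singleton_iff, Prod.mk.injEq] at h
    exact Or.inr (Or.inr (Or.inr (Or.inr h)))

/-- what can be done at a nonterminal `A` with left context `u` and right context `v` -/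
def Can (A : NT) (x u v : List (NT ⊕ T)) : Prop :=
  (∃ i, A = M ∧ x = [.inl (Mi i)] ∧ Free (FI i) u) ∨
  (∃ i, A = Mi i ∧ x = [.inl M] ∧ Free FQ u) ∨
  (A = M ∧ x = [] ∧ Free FM u) ∨
  (A = S ∧ x = [.inl L, .inl S1]) ∨
  (∃ y : T, A = S1 ∧ x = lc G [some (.inr y)] ++ [.inl S1, .inr y]) ∨
  (A = S1 ∧ x = lc G [none] ++ [.inl S2, .inl R, .inl M]) ∨
  (∃ t ∈ tiles G, A = S2 ∧ x = lc G t.1 ++ .inl S2 :: rc G t.2) ∨
  (A = S2 ∧ x = .inl C :: rc G [some (.inl G.S), none]) ∨
  (∃ i, A = a i false ∧ x = [.inl (a i true)] ∧ Free FP v) ∨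
  (∃ i, A = b i false ∧ x = [.inl (b i true)] ∧ Free FP v) ∨
  (∃ i, A = a i true ∧ x = [] ∧ Free FD v) ∨
  (∃ i, A = b i true ∧ x = [] ∧ Free FD v) ∨
  ((A = L ∨ A = C ∨ A = R) ∧ x = [] ∧ Free FE v)

theorem gg_cases {X Y : List (NT ⊕ T)} (h : (GG G).Step X Y) :
    ∃ A x u v, X = u ++ .inl A :: v ∧ Y = u ++ x ++ v ∧ Can G A x u v := by
  obtain ⟨A, x, F, u, v, hX, hY, hr⟩ := h
  refine ⟨A, x, u, v, hX, hY, ?_⟩
  rcases hr with ⟨hr, hF⟩ | ⟨hr | hr, hF⟩
  · rcases rule_fll hr with ⟨i, h1, h2, rfl⟩ | ⟨i, h1, h2, rfl⟩ | ⟨h1, h2, rfl⟩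
    · exact Or.inl ⟨i, h1, h2, hF⟩
    · exact Or.inr (Or.inl ⟨i, h1, h2, hF⟩)
    · exact Or.inr (Or.inr (Or.inl ⟨h1, h2, hF⟩))
  · obtain ⟨⟨A', x'⟩, h1, h2⟩ := hr
    injection h2 with h2 h3
    injection h3 with h3 _
    dsimp only at h2 h3
    subst h2 h3
    rcases rule_cf G h1 with h | h | h | h | h
    · exact Or.inr (Or.inr (Or.inr (Or.inl h)))
    · exact Or.inr (Or.inr (Or.inr (Or.inr (Or.inl h))))
    · exact Or.inr (Or.inr (Or.inr (Or.inr (Or.inr (Or.inl h)))))
    · exact Or.inr (Or.inr (Or.inr (Or.inr (Or.inr (Or.inr (Or.inl h))))))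
    · exact Or.inr (Or.inr (Or.inr (Or.inr (Or.inr (Or.inr (Or.inr (Or.inl h)))))))
  · rcases rule_frl hr with ⟨i, h1, h2, rfl⟩ | ⟨i, h1, h2, rfl⟩ | ⟨i, h1, h2, rfl⟩ |
      ⟨i, h1, h2, rfl⟩ | ⟨h1, h2, rfl⟩
    · exact Or.inr (Or.inr (Or.inr (Or.inr (Or.inr (Or.inr (Or.inr (Or.inr (Or.inl
        ⟨i, h1, h2, hF⟩))))))))
    · exact Or.inr (Or.inr (Or.inr (Or.inr (Or.inr (Or.inr (Or.inr (Or.inr (Or.inr (Or.inl
        ⟨i, h1, h2, hF⟩)))))))))
    · exact Or.inr (Or.inr (Or.inr (Or.inr (Or.inr (Or.inr (Or.inr (Or.inr (Or.inr (Or.inr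
        (Or.inl ⟨i, h1, h2, hF⟩))))))))))
    · exact Or.inr (Or.inr (Or.inr (Or.inr (Or.inr (Or.inr (Or.inr (Or.inr (Or.inr (Or.inr
        (Or.inr (Or.inl ⟨i, h1, h2, hF⟩)))))))))))
    · exact Or.inr (Or.inr (Or.inr (Or.inr (Or.inr (Or.inr (Or.inr (Or.inr (Or.inr (Or.inr
        (Or.inr (Or.inr ⟨h1, h2, hF⟩)))))))))))

omit [Finite T] in
theorem all_un {x : List (Bool × Bool)} (h : ∀ r ∈ x, r.2 = false) : x = un (x.map Prod.fst) := by
  induction x with
  | nil => rfl
  | cons s x ih =>
    have h1 := h s mem_cons_self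
    rw [map_cons]
    show s :: x = (s.1, false) :: un (x.map Prod.fst)
    rw [← ih fun r hr => h r (mem_cons_of_mem _ hr), ← h1]

omit [Finite T] in
theorem fst_un (x : List Bool) : (un x).map Prod.fst = x := by
  unfold un
  rw [map_map]
  exact map_id _

omit [Finite T] in
theorem fi_mem (i : Bool) : ([S2] ∈ FI i) ∧ (∀ j, [a j false, C] ∈ FI i) ∧
    (∀ j, [C, b j false] ∈ FI i) ∧ [L, C] ∈ FI i ∧ [C, R] ∈ FI i ∧ [a (!i) true] ∈ FI i ∧
    [b (!i) true] ∈ FI i ∧ (∀ j k p, [a j true, a k p] ∈ FI i) ∧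
    (∀ j p k, [b j p, b k true] ∈ FI i) := by
  refine ⟨?_, ?_, ?_, ?_, ?_, ?_, ?_, ?_, ?_⟩
  · simp [FI]
  · intro j; cases j <;> simp [FI]
  · intro j; cases j <;> simp [FI]
  · simp [FI]
  · simp [FI]
  · simp [FI]
  · simp [FI]
  · intro j k p
    unfold FI
    rw [Finset.mem_union, Finset.mem_union]
    exact Or.inl (Or.inr (Finset.mem_image.2 ⟨(j, k, p), Finset.mem_univ _, rfl⟩))
  · intro j p k
    unfold FI
    rw [Finset.mem_union]
    exact Or.inr (Finset.mem_image.2 ⟨(j, p, k), Finset.mem_univ _, rfl⟩)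

omit [Finite T] in
theorem fi_shape {i : Bool} {x y : List (Bool × Bool)}
    (h : Free (FI i) (.inl L :: (x.map fA ++ .inl C :: (y.map fB ++ [.inl R])) :
      List (NT ⊕ T))) :
    ∃ x' y', x = un x' ++ [(i, true)] ∧ y = (i, true) :: un y' := by
  obtain ⟨_, m2, m3, m4, m5, m6, m7, m8, m9⟩ := fi_mem i
  have hx : ∃ x', x = un x' ++ [(i, true)] := by
    rcases List.eq_nil_or_concat' x with rfl | ⟨x1, ⟨j, p⟩, rfl⟩
    · exfalso
      exact h _ m4 ⟨[], y.map fB ++ [.inl R], by simp⟩
    · have hp : p = true := by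
        cases p with
        | true => rfl
        | false =>
          exfalso
          exact h _ (m2 j) ⟨.inl L :: x1.map fA, y.map fB ++ [.inl R], by simp [fA]⟩
      subst hp
      have hj : j = i := by
        by_contra hne
        have : j = !i := by cases i <;> cases j <;> simp_all
        subst this
        exact free_sing h m6 (by simp [fA])
      subst hj
      refine ⟨x1.map Prod.fst, ?_⟩
      congr 1
      apply all_un
      rintro ⟨k, p⟩ hk
      cases p with
      | false => rfl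
      | true =>
        exfalso
        obtain ⟨p1, p2, rfl⟩ := List.append_of_mem hk
        rcases p2 with _ | ⟨⟨k', p'⟩, p2⟩
        · exact h _ (m8 k j true) ⟨.inl L :: p1.map fA, .inl C :: (y.map fB ++ [.inl R]),
            by simp [fA]⟩
        · exact h _ (m8 k k' p') ⟨.inl L :: p1.map fA, p2.map fA ++ .inl (a j true) ::
            .inl C :: (y.map fB ++ [.inl R]), by simp [fA]⟩
  have hy : ∃ y', y = (i, true) :: un y' := by
    rcases y with _ | ⟨⟨j, p⟩, y1⟩
    · exfalso
      exact h _ m5 ⟨.inl L :: x.map fA, [], by simp⟩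
    · have hp : p = true := by
        cases p with
        | true => rfl
        | false =>
          exfalso
          exact h _ (m3 j) ⟨.inl L :: x.map fA, y1.map fB ++ [.inl R], by simp [fB]⟩
      subst hp
      have hj : j = i := by
        by_contra hne
        have : j = !i := by cases i <;> cases j <;> simp_all
        subst this
        exact free_sing h m7 (by simp [fB])
      subst hj
      refine ⟨y1.map Prod.fst, ?_⟩
      congr 1
      apply all_un
      rintro ⟨k, p⟩ hk
      cases p with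
      | false => rfl
      | true =>
        exfalso
        obtain ⟨p1, p2, rfl⟩ := List.append_of_mem hk
        rcases List.eq_nil_or_concat' p1 with rfl | ⟨p1, ⟨k', p'⟩, rfl⟩
        · exact h _ (m9 j true k) ⟨.inl L :: (x.map fA ++ [.inl C]), p2.map fB ++ [.inl R],
            by simp [fB]⟩
        · exact h _ (m9 k' p' k) ⟨.inl L :: (x.map fA ++ .inl C :: .inl (b j true) ::
            p1.map fB), p2.map fB ++ [.inl R], by simp [fB]⟩
  obtain ⟨x', rfl⟩ := hx
  obtain ⟨y', rfl⟩ := hy
  exact ⟨x', y', rfl, rfl⟩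

theorem lc_append (l l' : List (Sg G)) : lc G (l ++ l') = lc G l ++ lc G l' := by
  simp [lc, un, code_append]

theorem rc_append (l l' : List (Sg G)) : rc G (l ++ l') = rc G l' ++ rc G l := by
  simp [rc, un, code_append]

end

section

variable [Finite T] (G : Type0 T)

/-! ### Soundness -/

omit [Finite T] in
theorem fp_mem : [S1] ∈ FP ∧ ∀ i, [Mi i] ∈ FP := by
  refine ⟨by simp [FP], fun i => ?_⟩
  cases i <;> simp [FP]

omit [Finite T] in
theorem fd_mem : [S1] ∈ FD ∧ [M] ∈ FD := by
  simp [FD]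

omit [Finite T] in
theorem fe_mem : [S1] ∈ FE ∧ [S2] ∈ FE ∧ [M] ∈ FE ∧ ∀ i, [Mi i] ∈ FE := by
  refine ⟨by simp [FE], by simp [FE], by simp [FE], fun i => ?_⟩
  cases i <;> simp [FE]

omit [Finite T] in
theorem fm_mem : [S2] ∈ FM ∧ (∀ i p, [a i p] ∈ FM) ∧ ∀ i p, [b i p] ∈ FM := by
  refine ⟨by simp [FM], fun i p => ?_, fun i p => ?_⟩
  · cases i <;> cases p <;> simp [FM]
  · cases i <;> cases p <;> simp [FM]

omit [Finite T] in
theorem fq_mem : (∀ i, [a i true] ∈ FQ) ∧ ∀ i, [b i true] ∈ FQ := by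
  refine ⟨fun i => ?_, fun i => ?_⟩
  · cases i <;> simp [FQ]
  · cases i <;> simp [FQ]

variable {G} {x u v : List (NT ⊕ T)}

theorem can_L (h : Can G L x u v) : x = [] ∧ Free FE v := by simpa [Can] using h
theorem can_C (h : Can G C x u v) : x = [] ∧ Free FE v := by simpa [Can] using h
theorem can_R (h : Can G R x u v) : x = [] ∧ Free FE v := by simpa [Can] using h
theorem can_a0 {i : Bool} (h : Can G (a i false) x u v) :
    x = [.inl (a i true)] ∧ Free FP v := by simpa [Can] using h
theorem can_a1 {i : Bool} (h : Can G (a i true) x u v) : x = [] ∧ Free FD v := by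
  simpa [Can] using h
theorem can_b0 {i : Bool} (h : Can G (b i false) x u v) :
    x = [.inl (b i true)] ∧ Free FP v := by simpa [Can] using h
theorem can_b1 {i : Bool} (h : Can G (b i true) x u v) : x = [] ∧ Free FD v := by
  simpa [Can] using h
theorem can_M (h : Can G M x u v) :
    (∃ i, x = [.inl (Mi i)] ∧ Free (FI i) u) ∨ (x = [] ∧ Free FM u) := by
  simpa [Can] using h
theorem can_Mi {i : Bool} (h : Can G (Mi i) x u v) : x = [.inl M] ∧ Free FQ u := by
  simpa [Can] using h
theorem can_S (h : Can G S x u v) : x = [.inl L, .inl S1] := by simpa [Can] using h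
theorem can_S1 (h : Can G S1 x u v) :
    (∃ y : T, x = lc G [some (.inr y)] ++ [.inl S1, .inr y]) ∨
    x = lc G [none] ++ [.inl S2, .inl R, .inl M] := by
  simpa only [Can, reduceCtorEq, false_and, and_false, exists_false, false_or, or_false,
    true_and, exists_const] using h
theorem can_S2 (h : Can G S2 x u v) :
    (∃ t ∈ tiles G, x = lc G t.1 ++ .inl S2 :: rc G t.2) ∨
    x = .inl C :: rc G [some (.inl G.S), none] := by
  simpa only [Can, reduceCtorEq, false_and, and_false, exists_false, false_or, or_false,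
    true_and, exists_const] using h

variable (G)

def F1 (z : List Bool) (w : List T) : List (NT ⊕ T) :=
  .inl L :: ((un z).map fA ++ .inl S1 :: w.map .inr)

omit [Finite T] in
theorem locate1 {z : List Bool} {w : List T} {u v : List (NT ⊕ T)} {Z : NT}
    (h : F1 z w = u ++ .inl Z :: v) :
    (Z = L ∧ .inl S1 ∈ v) ∨ (∃ i, Z = a i false ∧ .inl S1 ∈ v) ∨
      (Z = S1 ∧ u = .inl L :: (un z).map fA ∧ v = w.map .inr) := by
  unfold F1 at h
  cases u with
  | nil =>
    rw [nil_append, cons.injEq, Sum.inl.injEq] at h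
    exact Or.inl ⟨h.1.symm, by rw [← h.2]; simp⟩
  | cons r u =>
    rw [cons_append, cons.injEq] at h
    obtain ⟨rfl, h⟩ := h
    right
    rcases app_split h with ⟨p2, h1, rfl⟩ | ⟨q1, rfl, h1⟩
    · left
      obtain ⟨x1, x', h0, rfl, h2⟩ := List.map_eq_append_iff.1 h1
      obtain ⟨s, x2, rfl, h3, rfl⟩ := List.map_eq_cons_iff.1 h2
      simp only [fA, Sum.inl.injEq] at h3
      have hs : s ∈ un z := by rw [h0]; simp
      obtain ⟨i, _, rfl⟩ := mem_map.1 hs
      exact ⟨i, h3.symm, by simp⟩
    · right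
      cases q1 with
      | nil =>
        rw [nil_append, cons.injEq, Sum.inl.injEq] at h1
        exact ⟨h1.1.symm, by simp, h1.2.symm⟩
      | cons r q1 =>
        exfalso
        rw [cons_append, cons.injEq] at h1
        have : (.inl Z : NT ⊕ T) ∈ w.map .inr := by rw [h1.2]; simp
        simp at this

omit [Finite T] in
theorem un_append (z z' : List Bool) : un (z ++ z') = un z ++ un z' := by simp [un]

theorem ok_step1 {w : List T} {Y : List (NT ⊕ T)}
    (h : (GG G).Step (F1 (code G ((w.reverse.map Sum.inr).map some)) w) Y) : Ok G Y := by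
  obtain ⟨A, x, u, v, hX, rfl, hc⟩ := gg_cases G h
  rcases locate1 hX with ⟨rfl, hv⟩ | ⟨i, rfl, hv⟩ | ⟨rfl, rfl, rfl⟩
  · exact absurd hv (free_sing (can_L hc).2 fe_mem.1)
  · exact absurd hv (free_sing (can_a0 hc).2 fp_mem.1)
  · rcases can_S1 hc with ⟨y, rfl⟩ | rfl
    · have := Ok.s1 (G := G) (y :: w)
      simp only [reverse_cons, map_append, lc_append] at this
      convert this using 1
      simp [lc]
    · have := Ok.s2 (G := G) (un (code G ((w.reverse.map Sum.inr).map some ++ [none]))) [] w [] []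
        .nil (fst_un _) (by simp [code])
      convert this using 1
      simp [F3, lc, code_append, un_append]

theorem ok_step2 {x y : List (Bool × Bool)} {w : List T} {U V : List (Sg G)} (hTS : TS G U V)
    (hx : x.map Prod.fst = code G ((w.reverse.map Sum.inr).map some ++ none :: U))
    (hy : y.map Prod.fst = (code G V).reverse) {Y : List (NT ⊕ T)}
    (h : (GG G).Step (F3 x S2 y M w) Y) : Ok G Y := by
  obtain ⟨A, r, u, v, hX, rfl, hc⟩ := gg_cases G h
  rcases locate hX with ⟨rfl, rfl, rfl⟩ | ⟨x1, ⟨j, p⟩, x2, rfl, rfl, rfl, rfl⟩ | ⟨rfl, rfl, rfl⟩ |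
    ⟨y1, ⟨j, p⟩, y2, rfl, rfl, rfl, rfl⟩ | ⟨rfl, rfl, rfl⟩ | ⟨rfl, rfl, rfl⟩
  · exact absurd (by simp) (free_sing (can_L hc).2 fe_mem.2.1)
  · cases p with
    | false =>
      obtain ⟨rfl, _⟩ := can_a0 hc
      have := Ok.s2 (G := G) (x1 ++ (j, true) :: x2) y w U V hTS (by
        rw [← hx]; simp) hy
      convert this using 1
      simp [F3, fA]
    | true => exact absurd (by simp) (free_sing (can_a1 hc).2 fd_mem.2)
  · rcases can_S2 hc with ⟨t, ht, rfl⟩ | rfl
    · have := Ok.s2 (G := G) (x ++ un (code G t.1)) (un (code G t.2).reverse ++ y) w _ _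
        (hTS.app ht) (by
          rw [map_append, hx, fst_un, ← code_append]
          simp) (by
          rw [map_append, hy, fst_un, code_append, reverse_append])
      convert this using 1
      simp [F3, lc, rc]
    · have := Ok.s3 (G := G) x (un (code G [some (Sum.inl G.S), none]).reverse ++ y) w (by
        intro h
        rw [mem_lang_iff]
        refine ⟨U, V, hTS, ?_⟩
        rw [← hx, h, map_append, hy, fst_un, reverse_append, reverse_reverse, reverse_reverse,
          code_append])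
      convert this using 1
      simp [F3, rc]
  · cases p with
    | false =>
      obtain ⟨rfl, _⟩ := can_b0 hc
      have := Ok.s2 (G := G) x (y1 ++ (j, true) :: y2) w U V hTS hx (by
        rw [← hy]; simp)
      convert this using 1
      simp [F3, fB]
    | true => exact absurd (by simp) (free_sing (can_b1 hc).2 fd_mem.2)
  · exact absurd (by simp) (free_sing (can_R hc).2 fe_mem.2.2.1)
  · rcases can_M hc with ⟨i, _, hF⟩ | ⟨_, hF⟩
    · exact absurd (by simp) (free_sing hF (fi_mem i).1)
    · exact absurd (by simp) (free_sing hF fm_mem.1)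

theorem ok_step3 {x y : List (Bool × Bool)} {w : List T}
    (hw : x.map Prod.fst = (y.map Prod.fst).reverse → w ∈ G.lang) {Y : List (NT ⊕ T)}
    (h : (GG G).Step (F3 x C y M w) Y) : Ok G Y := by
  obtain ⟨A, r, u, v, hX, rfl, hc⟩ := gg_cases G h
  rcases locate hX with ⟨rfl, rfl, rfl⟩ | ⟨x1, ⟨j, p⟩, x2, rfl, rfl, rfl, rfl⟩ | ⟨rfl, rfl, rfl⟩ |
    ⟨y1, ⟨j, p⟩, y2, rfl, rfl, rfl, rfl⟩ | ⟨rfl, rfl, rfl⟩ | ⟨rfl, rfl, rfl⟩
  · exact absurd (by simp) (free_sing (can_L hc).2 fe_mem.2.2.1)
  · cases p with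
    | false =>
      obtain ⟨rfl, _⟩ := can_a0 hc
      have := Ok.s3 (G := G) (x1 ++ (j, true) :: x2) y w (by simpa using hw)
      convert this using 1
      simp [F3, fA]
    | true => exact absurd (by simp) (free_sing (can_a1 hc).2 fd_mem.2)
  · exact absurd (by simp) (free_sing (can_C hc).2 fe_mem.2.2.1)
  · cases p with
    | false =>
      obtain ⟨rfl, _⟩ := can_b0 hc
      have := Ok.s3 (G := G) x (y1 ++ (j, true) :: y2) w (by simpa using hw)
      convert this using 1
      simp [F3, fB]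
    | true => exact absurd (by simp) (free_sing (can_b1 hc).2 fd_mem.2)
  · exact absurd (by simp) (free_sing (can_R hc).2 fe_mem.2.2.1)
  · rcases can_M hc with ⟨i, rfl, hF⟩ | ⟨rfl, hF⟩
    · obtain ⟨x', y', rfl, rfl⟩ := fi_shape hF
      have := Ok.s3i (G := G) x' y' i true true w (by
        intro h
        apply hw
        rw [map_append, fst_un, h]
        simp [fst_un])
      convert this using 1
      simp [F3]
    · have hx : x = [] := by
        cases x with
        | nil => rfl
        | cons s x => exact absurd (by simp [fA]) (free_sing hF (fm_mem.2.1 s.1 s.2))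
      have hy : y = [] := by
        cases y with
        | nil => rfl
        | cons s y => exact absurd (by simp [fB]) (free_sing hF (fm_mem.2.2 s.1 s.2))
      subst hx hy
      have := Ok.s4 (G := G) [.inl L, .inl C, .inl R] w (Sublist.refl _) (hw rfl)
      convert this using 1
      simp

theorem un_split {z : List Bool} {o : Bool} {i j : Bool} {x1 x2 : List (Bool × Bool)}
    (h : un z ++ (if o then [(i, true)] else []) = x1 ++ (j, true) :: x2) :
    o = true ∧ j = i ∧ x1 = un z ∧ x2 = [] := by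
  have hnot : ∀ A B, un z ≠ A ++ (j, true) :: B := by
    intro A B hz
    have : (j, true) ∈ un z := by rw [hz]; simp
    simp [un] at this
  rcases app_split h with ⟨p2, h1, _⟩ | ⟨q1, rfl, h1⟩
  · exact absurd h1 (hnot _ _)
  · cases o with
    | false => simp at h1
    | true =>
      simp only [if_true] at h1
      rcases q1 with _ | ⟨r, q1⟩
      · simp only [nil_append, cons.injEq, Prod.mk.injEq, and_true] at h1
        exact ⟨rfl, h1.1.symm, by simp, h1.2.symm⟩
      · simp at h1

theorem un_split' {z : List Bool} {o : Bool} {i j : Bool} {x1 x2 : List (Bool × Bool)}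
    (h : (if o then [(i, true)] else []) ++ un z = x1 ++ (j, true) :: x2) :
    o = true ∧ j = i ∧ x1 = [] ∧ x2 = un z := by
  have hnot : ∀ A B, un z ≠ A ++ (j, true) :: B := by
    intro A B hz
    have : (j, true) ∈ un z := by rw [hz]; simp
    simp [un] at this
  rcases app_split h with ⟨p2, h1, h2⟩ | ⟨q1, _, h1⟩
  · cases o with
    | false => simp at h1
    | true =>
      simp only [if_true] at h1
      rcases x1 with _ | ⟨r, x1⟩
      · simp only [nil_append, cons.injEq, Prod.mk.injEq, and_true] at h1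
        obtain ⟨h3, rfl⟩ := h1
        exact ⟨rfl, h3.symm, rfl, by simpa using h2⟩
      · simp at h1
  · exact absurd h1 (hnot _ _)

theorem ok_step3i {x y : List Bool} {i ox oy : Bool} {w : List T}
    (hw : x = y.reverse → w ∈ G.lang) {Y : List (NT ⊕ T)}
    (h : (GG G).Step (F3 (un x ++ if ox then [(i, true)] else []) C
      ((if oy then [(i, true)] else []) ++ un y) (Mi i) w) Y) : Ok G Y := by
  obtain ⟨A, r, u, v, hX, rfl, hc⟩ := gg_cases G h
  rcases locate hX with ⟨rfl, rfl, rfl⟩ | ⟨x1, ⟨j, p⟩, x2, hs, rfl, rfl, rfl⟩ |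
    ⟨rfl, rfl, rfl⟩ | ⟨y1, ⟨j, p⟩, y2, hs, rfl, rfl, rfl⟩ | ⟨rfl, rfl, rfl⟩ | ⟨rfl, rfl, rfl⟩
  · exact absurd (by simp) (free_sing (can_L hc).2 (fe_mem.2.2.2 i))
  · cases p with
    | false => exact absurd (by simp) (free_sing (can_a0 hc).2 (fp_mem.2 i))
    | true =>
      obtain ⟨rfl, _⟩ := can_a1 hc
      obtain ⟨rfl, rfl, rfl, rfl⟩ := un_split hs
      have := Ok.s3i (G := G) x y j false oy w hw
      convert this using 1
      simp [F3]
  · exact absurd (by simp) (free_sing (can_C hc).2 (fe_mem.2.2.2 i))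
  · cases p with
    | false => exact absurd (by simp) (free_sing (can_b0 hc).2 (fp_mem.2 i))
    | true =>
      obtain ⟨rfl, _⟩ := can_b1 hc
      obtain ⟨rfl, rfl, rfl, rfl⟩ := un_split' hs
      have := Ok.s3i (G := G) x y j ox false w hw
      convert this using 1
      simp [F3]
  · exact absurd (by simp) (free_sing (can_R hc).2 (fe_mem.2.2.2 i))
  · obtain ⟨rfl, hF⟩ := can_Mi hc
    have h1 : ox = false := by
      cases ox with
      | false => rfl
      | true => exact absurd (by simp [fA]) (free_sing hF (fq_mem.1 i))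
    have h2 : oy = false := by
      cases oy with
      | false => rfl
      | true => exact absurd (by simp [fB]) (free_sing hF (fq_mem.2 i))
    subst h1 h2
    have := Ok.s3 (G := G) (un x) (un y) w (by rw [fst_un, fst_un]; exact hw)
    convert this using 1
    simp [F3]

theorem ok_step4 {l : List (NT ⊕ T)} {w : List T} (hl : l <+ [.inl L, .inl C, .inl R])
    (hw : w ∈ G.lang) {Y : List (NT ⊕ T)} (h : (GG G).Step (l ++ w.map .inr) Y) : Ok G Y := by
  obtain ⟨A, r, u, v, hX, rfl, hc⟩ := gg_cases G h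
  have hX' : l ++ w.map .inr = u ++ .inl A :: v := hX
  rcases app_split hX' with ⟨p2, rfl, rfl⟩ | ⟨q1, _, h1⟩
  · have hA : A = L ∨ A = C ∨ A = R := by
      have := hl.subset (show (.inl A : NT ⊕ T) ∈ u ++ .inl A :: p2 by simp)
      simpa using this
    have hr : r = [] := by
      rcases hA with rfl | rfl | rfl
      · exact (can_L hc).1
      · exact (can_C hc).1
      · exact (can_R hc).1
    subst hr
    have := Ok.s4 (G := G) (u ++ p2) w
      (((Sublist.refl u).append (sublist_cons_self _ p2)).trans hl) hw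
    convert this using 1
    simp
  · exfalso
    have : (.inl A : NT ⊕ T) ∈ w.map .inr := by rw [h1]; simp
    simp at this

theorem ok_step {X Y : List (NT ⊕ T)} (hX : Ok G X) (h : (GG G).Step X Y) : Ok G Y := by
  cases hX with
  | s0 =>
    obtain ⟨A, r, u, v, hX, rfl, hc⟩ := gg_cases G h
    have hX' : [.inl S] = u ++ .inl A :: v := hX
    rcases u with _ | ⟨s, u⟩
    · simp only [nil_append, cons.injEq, Sum.inl.injEq] at hX'
      obtain ⟨rfl, rfl⟩ := hX'
      rw [can_S hc]
      have := Ok.s1 (G := G) []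
      convert this using 1
      simp [lc, code, un]
    · simp at hX'
  | s1 w => exact ok_step1 G h
  | s2 x y w U V hTS hx hy => exact ok_step2 G hTS hx hy h
  | s3 x y w hw => exact ok_step3 G hw h
  | s3i x y i ox oy w hw => exact ok_step3i G hw h
  | s4 l w hl hw => exact ok_step4 G hl hw h

theorem ok_term {w : List T} (h : Ok G (w.map .inr)) : w ∈ G.lang := by
  generalize hX : (w.map Sum.inr : List (NT ⊕ T)) = X at h
  cases h with
  | s0 => cases w <;> simp at hX
  | s1 w' => cases w <;> simp at hX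
  | s2 x y w' U V hTS hx hy => cases w <;> simp [F3] at hX
  | s3 x y w' hw => cases w <;> simp [F3] at hX
  | s3i x y i ox oy w' hw => cases w <;> simp [F3] at hX
  | s4 l w' hl hw =>
    cases l with
    | nil =>
      have : w = w' := List.map_injective_iff.2 Sum.inr_injective (by simpa using hX)
      rw [this]
      exact hw
    | cons s l =>
      exfalso
      have h1 := hl.subset (show s ∈ s :: l by simp)
      have h2 : s ∈ (w.map Sum.inr : List (NT ⊕ T)) := by rw [hX]; simp
      obtain ⟨c, _, rfl⟩ := mem_map.1 h2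
      simp at h1

theorem gg_sound : (GG G).lang ⊆ G.lang := by
  intro w hw
  apply ok_term
  have key : ∀ X, ReflTransGen (GG G).Step [.inl S] X → Ok G X := by
    intro X hX
    induction hX with
    | refl => exact .s0
    | tail _ h ih => exact ok_step G ih h
  exact key _ hw

/-! ### Completeness -/

variable {G}

theorem st_cf {A : NT} {x : List (NT ⊕ T)} (h : (A, x) ∈ CFr G) (u v : List (NT ⊕ T)) :
    (GG G).Step (u ++ .inl A :: v) (u ++ x ++ v) :=
  ⟨A, x, ∅, u, v, rfl, rfl, Or.inr ⟨Or.inl ⟨(A, x), h, rfl⟩, fun f hf => absurd hf (by simp)⟩⟩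

theorem st_r {A : NT} {x : List (NT ⊕ T)} {F : Finset (List NT)}
    (h : (A, x, F) ∈ (frl : List (NT × List (NT ⊕ T) × Finset (List NT)))) (u v : List (NT ⊕ T))
    (hF : Free F v) : (GG G).Step (u ++ .inl A :: v) (u ++ x ++ v) :=
  ⟨A, x, F, u, v, rfl, rfl, Or.inr ⟨Or.inr h, hF⟩⟩

theorem st_l {A : NT} {x : List (NT ⊕ T)} {F : Finset (List NT)}
    (h : (A, x, F) ∈ (fll : List (NT × List (NT ⊕ T) × Finset (List NT)))) (u v : List (NT ⊕ T))
    (hF : Free F u) : (GG G).Step (u ++ .inl A :: v) (u ++ x ++ v) :=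
  ⟨A, x, F, u, v, rfl, rfl, Or.inl ⟨h, hF⟩⟩

omit [Finite T] in
theorem free_of {F : Finset (List NT)} {u : List (NT ⊕ T)}
    (h : ∀ f ∈ F, ∃ s, f = [s] ∧ (.inl s : NT ⊕ T) ∉ u) : Free F u := by
  intro f hf hinf
  obtain ⟨s, rfl, hs⟩ := h f hf
  exact hs (sing.1 hinf)

omit [Finite T] in
theorem free_fp {u : List (NT ⊕ T)} (h1 : (.inl S1 : NT ⊕ T) ∉ u)
    (h2 : ∀ i, (.inl (Mi i) : NT ⊕ T) ∉ u) : Free FP u := by
  apply free_of
  intro f hf
  simp only [FP, Finset.mem_insert, Finset.mem_singleton] at hf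
  rcases hf with rfl | rfl | rfl
  · exact ⟨_, rfl, h1⟩
  · exact ⟨_, rfl, h2 _⟩
  · exact ⟨_, rfl, h2 _⟩

omit [Finite T] in
theorem free_fd {u : List (NT ⊕ T)} (h1 : (.inl S1 : NT ⊕ T) ∉ u)
    (h2 : (.inl M : NT ⊕ T) ∉ u) : Free FD u := by
  apply free_of
  intro f hf
  simp only [FD, Finset.mem_insert, Finset.mem_singleton] at hf
  rcases hf with rfl | rfl
  · exact ⟨_, rfl, h1⟩
  · exact ⟨_, rfl, h2⟩

omit [Finite T] in
theorem free_fe {u : List (NT ⊕ T)} (h1 : (.inl S1 : NT ⊕ T) ∉ u)
    (h2 : (.inl S2 : NT ⊕ T) ∉ u) (h3 : (.inl M : NT ⊕ T) ∉ u)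
    (h4 : ∀ i, (.inl (Mi i) : NT ⊕ T) ∉ u) : Free FE u := by
  apply free_of
  intro f hf
  simp only [FE, Finset.mem_insert, Finset.mem_singleton] at hf
  rcases hf with rfl | rfl | rfl | rfl | rfl
  · exact ⟨_, rfl, h1⟩
  · exact ⟨_, rfl, h2⟩
  · exact ⟨_, rfl, h3⟩
  · exact ⟨_, rfl, h4 _⟩
  · exact ⟨_, rfl, h4 _⟩

omit [Finite T] in
theorem free_fq {u : List (NT ⊕ T)} (h1 : ∀ i, (.inl (a i true) : NT ⊕ T) ∉ u)
    (h2 : ∀ i, (.inl (b i true) : NT ⊕ T) ∉ u) : Free FQ u := by
  apply free_of
  intro f hf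
  simp only [FQ, Finset.mem_union, Finset.mem_image, Finset.mem_univ, true_and] at hf
  rcases hf with ⟨s, rfl⟩ | ⟨s, rfl⟩
  · exact ⟨_, rfl, h1 _⟩
  · exact ⟨_, rfl, h2 _⟩

omit [Finite T] in
theorem free_fm {u : List (NT ⊕ T)} (h0 : (.inl S2 : NT ⊕ T) ∉ u)
    (h1 : ∀ i p, (.inl (a i p) : NT ⊕ T) ∉ u)
    (h2 : ∀ i p, (.inl (b i p) : NT ⊕ T) ∉ u) : Free FM u := by
  apply free_of
  intro f hf
  simp only [FM, Finset.mem_union, Finset.mem_image, Finset.mem_univ, true_and,
    Finset.mem_singleton] at hf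
  rcases hf with (rfl | ⟨s, rfl⟩) | ⟨s, rfl⟩
  · exact ⟨_, rfl, h0⟩
  · exact ⟨_, rfl, h1 _ _⟩
  · exact ⟨_, rfl, h2 _ _⟩

/-- allowed neighbours -/
def Rel (i : Bool) (p q : NT) : Prop := [p, q] ∉ FI i

def gA (s : Bool) : NT := a s false
def gB (s : Bool) : NT := b s false

omit [Finite T] in
theorem rel_facts (i : Bool) : (∀ j, Rel i L (a j false)) ∧ Rel i L (a i true) ∧
    (∀ j k, Rel i (a j false) (a k false)) ∧ (∀ j, Rel i (a j false) (a i true)) ∧
    Rel i (a i true) C ∧ Rel i C (b i true) ∧ (∀ j, Rel i (b i true) (b j false)) ∧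
    (∀ j k, Rel i (b j false) (b k false)) ∧ Rel i (b i true) R ∧ ∀ j, Rel i (b j false) R := by
  unfold Rel
  cases i <;> decide

omit [Finite T] in
theorem chB (i : Bool) (y : List Bool) : ∀ p : NT, (p = b i true ∨ ∃ j, p = b j false) →
    List.IsChain (Rel i) (p :: (y.map gB ++ [R])) := by
  obtain ⟨_, _, _, _, _, _, r7, r8, r9, r10⟩ := rel_facts i
  induction y with
  | nil =>
    intro p hp
    rw [map_nil, nil_append, List.isChain_pair]
    rcases hp with rfl | ⟨j, rfl⟩
    · exact r9
    · exact r10 j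
  | cons k y ih =>
    intro p hp
    rw [map_cons, cons_append, List.isChain_cons_cons]
    refine ⟨?_, ih _ (Or.inr ⟨k, rfl⟩)⟩
    rcases hp with rfl | ⟨j, rfl⟩
    · exact r7 k
    · exact r8 j k

omit [Finite T] in
theorem chA (i : Bool) (y : List Bool) (x : List Bool) : ∀ p : NT, (p = L ∨ ∃ j, p = a j false) →
    List.IsChain (Rel i) (p :: (x.map gA ++ (a i true :: C :: b i true :: (y.map gB ++ [R])))) := by
  obtain ⟨r1, r2, r3, r4, r5, r6, _, _, _, _⟩ := rel_facts i
  induction x with
  | nil =>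
    intro p hp
    rw [map_nil, nil_append, List.isChain_cons_cons, List.isChain_cons_cons,
      List.isChain_cons_cons]
    refine ⟨?_, r5, r6, chB i y _ (Or.inl rfl)⟩
    rcases hp with rfl | ⟨j, rfl⟩
    · exact r2
    · exact r4 j
  | cons k x ih =>
    intro p hp
    rw [map_cons, cons_append, List.isChain_cons_cons]
    refine ⟨?_, ih _ (Or.inr ⟨k, rfl⟩)⟩
    rcases hp with rfl | ⟨j, rfl⟩
    · exact r1 k
    · exact r3 j k

omit [Finite T] in
theorem fi_cases {i : Bool} {f : List NT} (h : f ∈ FI i) :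
    f = [S2] ∨ f = [a (!i) true] ∨ f = [b (!i) true] ∨ ∃ p q, f = [p, q] := by
  simp only [FI, Finset.mem_union, Finset.mem_insert, Finset.mem_singleton, Finset.mem_image,
    Finset.mem_univ, true_and] at h
  rcases h with ((h | h | h | h | h | h | h | h | h) | ⟨s, rfl⟩) | ⟨s, rfl⟩
  · exact Or.inl h
  · exact Or.inr (Or.inr (Or.inr ⟨_, _, h⟩))
  · exact Or.inr (Or.inr (Or.inr ⟨_, _, h⟩))
  · exact Or.inr (Or.inr (Or.inr ⟨_, _, h⟩))
  · exact Or.inr (Or.inr (Or.inr ⟨_, _, h⟩))
  · exact Or.inr (Or.inr (Or.inr ⟨_, _, h⟩))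
  · exact Or.inr (Or.inr (Or.inr ⟨_, _, h⟩))
  · exact Or.inr (Or.inl h)
  · exact Or.inr (Or.inr (Or.inl h))
  · exact Or.inr (Or.inr (Or.inr ⟨_, _, rfl⟩))
  · exact Or.inr (Or.inr (Or.inr ⟨_, _, rfl⟩))

omit [Finite T] in
theorem substr_of_map {z f : List NT} (h : (f.map .inl : List (NT ⊕ T)) <:+: z.map .inl) :
    f <:+: z := by
  obtain ⟨p, q, hpq⟩ := h
  obtain ⟨z1, z2, rfl, h1, h2⟩ := List.map_eq_append_iff.1 hpq.symm
  obtain ⟨z3, z4, rfl, h3, h4⟩ := List.map_eq_append_iff.1 h1
  have : f = z4 := List.map_injective_iff.2 Sum.inl_injective h4.symm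
  subst this
  exact ⟨z3, z2, rfl⟩

omit [Finite T] in
theorem free_fi (i : Bool) (x y : List Bool) :
    Free (FI i) (.inl L :: ((un x ++ [(i, true)]).map fA ++ .inl C ::
      (((i, true) :: un y).map fB ++ [.inl R])) : List (NT ⊕ T)) := by
  have hz : (.inl L :: ((un x ++ [(i, true)]).map fA ++ .inl C ::
      (((i, true) :: un y).map fB ++ [.inl R])) : List (NT ⊕ T)) =
      (L :: (x.map gA ++ (a i true :: C :: b i true :: (y.map gB ++ [R])))).map .inl := by
    simp [un, fA, fB]
    constructor <;> · intros; rfl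
  rw [hz]
  intro f hf hinf
  have h1 := substr_of_map hinf
  rcases fi_cases hf with rfl | rfl | rfl | ⟨p, q, rfl⟩
  · have := sing.1 h1
    simp [gA, gB] at this
  · have := sing.1 h1
    simp [gA, gB] at this
  · have := sing.1 h1
    simp [gA, gB] at this
  · obtain ⟨s, t, e⟩ := h1
    have h2 := chA i y x L (Or.inl rfl)
    rw [← e] at h2
    have h3 := h2.left_of_append.right_of_append
    rw [List.isChain_pair] at h3
    exact h3 hf

theorem round (x y : List Bool) (i : Bool) (w : List T) :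
    ReflTransGen (GG G).Step (F3 (un (x ++ [i])) C (un (i :: y)) M w) (F3 (un x) C (un y) M w) := by
  -- mark the left letter
  have h1 : (GG G).Step (F3 (un x ++ [(i, false)]) C ((i, false) :: un y) M w)
      (F3 (un x ++ [(i, true)]) C ((i, false) :: un y) M w) := by
    have := st_r (G := G) (A := a i false) (x := [.inl (a i true)]) (F := FP)
      (by cases i <;> simp [frl]) (.inl L :: (un x).map fA)
      (.inl C :: (((i, false) :: un y).map fB ++ .inl R :: .inl M :: w.map .inr))
      (free_fp (by simp [fB]) (by simp [fB]))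
    convert this using 1 <;> simp [F3, fA]
  have h2 : (GG G).Step (F3 (un x ++ [(i, true)]) C ((i, false) :: un y) M w)
      (F3 (un x ++ [(i, true)]) C ((i, true) :: un y) M w) := by
    have := st_r (G := G) (A := b i false) (x := [.inl (b i true)]) (F := FP)
      (by cases i <;> simp [frl]) (.inl L :: ((un x ++ [(i, true)]).map fA ++ [.inl C]))
      ((un y).map fB ++ .inl R :: .inl M :: w.map .inr)
      (free_fp (by simp [fB]) (by simp [fB]))
    convert this using 1 <;> simp [F3, fB]
  have h3 : (GG G).Step (F3 (un x ++ [(i, true)]) C ((i, true) :: un y) M w)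
      (F3 (un x ++ [(i, true)]) C ((i, true) :: un y) (Mi i) w) := by
    have := st_l (G := G) (A := M) (x := [.inl (Mi i)]) (F := FI i)
      (by cases i <;> simp [fll]) _ (w.map .inr) (free_fi i x y)
    convert this using 1 <;> simp [F3]
  have h4 : (GG G).Step (F3 (un x ++ [(i, true)]) C ((i, true) :: un y) (Mi i) w)
      (F3 (un x) C ((i, true) :: un y) (Mi i) w) := by
    have := st_r (G := G) (A := a i true) (x := []) (F := FD)
      (by cases i <;> simp [frl]) (.inl L :: (un x).map fA)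
      (.inl C :: (((i, true) :: un y).map fB ++ .inl R :: .inl (Mi i) :: w.map .inr))
      (free_fd (by simp [fB]) (by simp [fB]))
    convert this using 1 <;> simp [F3, fA]
  have h5 : (GG G).Step (F3 (un x) C ((i, true) :: un y) (Mi i) w)
      (F3 (un x) C (un y) (Mi i) w) := by
    have := st_r (G := G) (A := b i true) (x := []) (F := FD)
      (by cases i <;> simp [frl]) (.inl L :: ((un x).map fA ++ [.inl C]))
      ((un y).map fB ++ .inl R :: .inl (Mi i) :: w.map .inr)
      (free_fd (by simp [fB]) (by simp [fB]))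
    convert this using 1 <;> simp [F3, fB]
  have h6 : (GG G).Step (F3 (un x) C (un y) (Mi i) w) (F3 (un x) C (un y) M w) := by
    have := st_l (G := G) (A := Mi i) (x := [.inl M]) (F := FQ)
      (by cases i <;> simp [fll])
      (.inl L :: ((un x).map fA ++ .inl C :: ((un y).map fB ++ [.inl R]))) (w.map .inr)
      (free_fq (by simp [fA, fB, un]) (by simp [fA, fB, un]))
    convert this using 1 <;> simp [F3]
  have e1 : un (x ++ [i]) = un x ++ [(i, false)] := by simp [un]
  have e2 : un (i :: y) = (i, false) :: un y := rfl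
  rw [e1, e2]
  exact ((((((ReflTransGen.single h1).tail h2).tail h3).tail h4).tail h5).tail h6)

theorem rounds (z : List Bool) (w : List T) :
    ReflTransGen (GG G).Step (F3 (un z) C (un z.reverse) M w) (F3 [] C [] M w) := by
  induction z using List.reverseRecOn with
  | nil => exact ReflTransGen.refl
  | append_singleton z i ih =>
    have h := round (G := G) z z.reverse i w
    have e : (z ++ [i]).reverse = i :: z.reverse := by simp
    rw [e]
    exact h.trans ih

theorem finish (w : List T) :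
    ReflTransGen (GG G).Step (F3 [] C [] M w) (w.map .inr) := by
  have h1 : (GG G).Step (F3 [] C [] M w) ([.inl L, .inl C, .inl R] ++ w.map .inr) := by
    have := st_l (G := G) (A := M) (x := []) (F := FM) (by simp [fll])
      [.inl L, .inl C, .inl R] (w.map .inr) (free_fm (by simp) (by simp) (by simp))
    exact this
  have h2 : (GG G).Step ([.inl L, .inl C, .inl R] ++ w.map .inr) ([.inl C, .inl R] ++ w.map .inr) := by
    have := st_r (G := G) (A := L) (x := []) (F := FE) (by simp [frl])
      [] ([.inl C, .inl R] ++ w.map .inr) (free_fe (by simp) (by simp) (by simp) (by simp))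
    exact this
  have h3 : (GG G).Step ([.inl C, .inl R] ++ w.map .inr) ([.inl R] ++ w.map .inr) := by
    have := st_r (G := G) (A := C) (x := []) (F := FE) (by simp [frl])
      [] ([.inl R] ++ w.map .inr) (free_fe (by simp) (by simp) (by simp) (by simp))
    exact this
  have h4 : (GG G).Step ([.inl R] ++ w.map .inr) (w.map .inr) := by
    have := st_r (G := G) (A := R) (x := []) (F := FE) (by simp [frl])
      [] (w.map .inr) (free_fe (by simp) (by simp) (by simp) (by simp))
    exact this
  exact ((((ReflTransGen.single h1).tail h2).tail h3).tail h4)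

theorem phase1 (r : List T) : ReflTransGen (GG G).Step [.inl S]
    (.inl L :: (lc G ((r.map Sum.inr).map some) ++ .inl S1 :: r.reverse.map .inr)) := by
  induction r using List.reverseRecOn with
  | nil =>
    have := st_cf (G := G) (A := S) (x := [.inl L, .inl S1])
      (Or.inl (Or.inl (Or.inl (Or.inl rfl)))) [] []
    refine ReflTransGen.single ?_
    have e : ([.inl L] ++ (lc G (([].map Sum.inr : List (G.N ⊕ T)).map some) ++ .inl S1 ::
        (([] : List T).reverse.map .inr)) : List (NT ⊕ T)) = [] ++ [.inl L, .inl S1] ++ [] := by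
      simp [lc, code, un]
    exact (congrArg ((GG G).Step [.inl S]) e).mpr this
  | append_singleton r y ih =>
    refine ih.tail ?_
    have := st_cf (G := G) (A := S1) (x := lc G [some (.inr y)] ++ [.inl S1, .inr y])
      (Or.inl (Or.inl (Or.inl (Or.inr ⟨y, rfl⟩)))) (.inl L :: lc G ((r.map Sum.inr).map some))
      (r.reverse.map .inr)
    have e : (.inl L :: (lc G (((r ++ [y]).map Sum.inr).map some) ++ .inl S1 ::
        (r ++ [y]).reverse.map .inr) : List (NT ⊕ T)) =
        .inl L :: lc G ((r.map Sum.inr).map some) ++ (lc G [some (.inr y)] ++ [.inl S1, .inr y]) ++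
          r.reverse.map .inr := by
      simp [lc_append]
    exact (congrArg _ e).mpr this

theorem phase2 {U V : List (Sg G)} (h : TS G U V) (z : List (Sg G)) (w : List T) :
    ReflTransGen (GG G).Step (F3 (un (code G z)) S2 [] M w)
      (F3 (un (code G (z ++ U))) S2 (un (code G V).reverse) M w) := by
  induction h with
  | nil => simp only [append_nil]; exact ReflTransGen.refl
  | @app U V t h ht ih =>
    refine ih.tail ?_
    have := st_cf (G := G) (A := S2) (x := lc G t.1 ++ .inl S2 :: rc G t.2)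
      (Or.inl (Or.inr ⟨t, ht, rfl⟩)) (.inl L :: (un (code G (z ++ U))).map fA)
      ((un (code G V).reverse).map fB ++ .inl R :: .inl M :: w.map .inr)
    convert this using 1 <;> simp [F3, lc, rc, code_append, un_append]

theorem gg_complete : G.lang ⊆ (GG G).lang := by
  intro w hw
  obtain ⟨U, V, hTS, hcode⟩ := (mem_lang_iff G w).1 hw
  have h1 := phase1 (G := G) w.reverse
  rw [reverse_reverse] at h1
  have h2 : (GG G).Step (.inl L :: (lc G ((w.reverse.map Sum.inr).map some) ++ .inl S1 ::
      w.map .inr)) (F3 (un (code G ((w.reverse.map Sum.inr).map some ++ [none]))) S2 [] M w) := by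
    have hm : ((S1, lc G [none] ++ [.inl S2, .inl R, .inl M]) : NT × List (NT ⊕ T)) ∈ CFr G :=
      Or.inl (Or.inl (Or.inr rfl))
    have := st_cf hm (.inl L :: lc G ((w.reverse.map Sum.inr).map some)) (w.map .inr)
    have e : F3 (un (code G ((w.reverse.map Sum.inr).map some ++ [none]))) S2 [] M w =
        .inl L :: lc G ((w.reverse.map Sum.inr).map some) ++
          (lc G [none] ++ [.inl S2, .inl R, .inl M]) ++ w.map .inr := by
      simp [F3, lc, code_append, un_append]
    exact (congrArg _ e).mpr this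
  have h3 := phase2 (G := G) hTS ((w.reverse.map Sum.inr).map some ++ [none]) w
  have h4 : (GG G).Step
      (F3 (un (code G ((w.reverse.map Sum.inr).map some ++ [none] ++ U))) S2
        (un (code G V).reverse) M w)
      (F3 (un (code G (V ++ [some (Sum.inl G.S), none]))) C
        (un (code G (V ++ [some (Sum.inl G.S), none])).reverse) M w) := by
    have e : (w.reverse.map Sum.inr).map some ++ [none] ++ U =
        (w.reverse.map Sum.inr).map some ++ none :: U := by simp
    rw [e, hcode]
    have := st_cf (G := G) (A := S2) (x := .inl C :: rc G [some (.inl G.S), none])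
      (Or.inr rfl) (.inl L :: (un (code G (V ++ [some (Sum.inl G.S), none]))).map fA)
      ((un (code G V).reverse).map fB ++ .inl R :: .inl M :: w.map .inr)
    convert this using 1 <;> simp [F3, rc, code_append, un_append]
  exact ((((h1.tail h2).trans h3).tail h4).trans (rounds _ w)).trans (finish w)

/-! ### The theorem -/

omit [Finite T] in
theorem len_le {i : Bool} : ∀ f ∈ FI i, f.length ≤ 2 := by
  intro f hf
  rcases fi_cases hf with rfl | rfl | rfl | ⟨p, q, rfl⟩ <;> simp

theorem gg_degree : (GG G).Degree 2 1 := by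
  constructor
  · rintro ⟨A, x, F⟩ hr f hf
    rcases rule_fll hr with ⟨i, _, _, rfl⟩ | ⟨i, _, _, rfl⟩ | ⟨_, _, rfl⟩
    · exact len_le f hf
    · have hq : ∀ f ∈ FQ, f.length ≤ 2 := by decide
      exact hq f hf
    · have hq : ∀ f ∈ FM, f.length ≤ 2 := by decide
      exact hq f hf
  · rintro ⟨A, x, F⟩ hr f hf
    rcases hr with ⟨r, _, hr⟩ | hr
    · injection hr with _ hr
      injection hr with _ hr
      change f ∈ F at hf
      rw [← hr] at hf
      exact absurd hf (Finset.notMem_empty _)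
    · have hp : ∀ f ∈ FP, f.length ≤ 1 := by decide
      have hd : ∀ f ∈ FD, f.length ≤ 1 := by decide
      have he : ∀ f ∈ FE, f.length ≤ 1 := by decide
      rcases rule_frl hr with ⟨i, _, _, rfl⟩ | ⟨i, _, _, rfl⟩ | ⟨i, _, _, rfl⟩ |
        ⟨i, _, _, rfl⟩ | ⟨_, _, rfl⟩
      · exact hp f hf
      · exact hp f hf
      · exact hd f hf
      · exact hd f hf
      · exact he f hf

abbrev Ru (T : Type) : Type := NT × List (NT ⊕ T) × Finset (List NT)

theorem gg_count' : {r : Ru T | (r ∈ {r : Ru T | r ∈ (fll : List (Ru T))} ∨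
    r ∈ (fun r : NT × List (NT ⊕ T) => ((r.1, r.2, ∅) : Ru T)) '' CFr G ∪
      {r : Ru T | r ∈ (frl : List (Ru T))}) ∧ r.2.2 ≠ ∅}.ncard ≤ 16 := by
  classical
  have hsub : {r : Ru T | (r ∈ {r : Ru T | r ∈ (fll : List (Ru T))} ∨
      r ∈ (fun r : NT × List (NT ⊕ T) => ((r.1, r.2, ∅) : Ru T)) '' CFr G ∪
      {r : Ru T | r ∈ (frl : List (Ru T))}) ∧ r.2.2 ≠ ∅} ⊆
      ((fll ++ frl : List (Ru T)).toFinset : Set (Ru T)) := by
    rintro r ⟨hr | hr | hr, hne⟩
    · simp only [coe_toFinset, mem_append]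
      exact Or.inl hr
    · exfalso
      obtain ⟨r', _, rfl⟩ := hr
      exact hne rfl
    · simp only [coe_toFinset, mem_append]
      exact Or.inr hr
  refine (Set.ncard_le_ncard hsub (Finset.finite_toSet _)).trans ?_
  rw [Set.ncard_coe_finset]
  exact (List.toFinset_card_le _).trans (by simp [fll, frl])

theorem gg_count : {r | (r ∈ (GG G).PL ∨ r ∈ (GG G).PR) ∧ r.2.2 ≠ ∅}.ncard ≤ 16 :=
  gg_count' (G := G)

end

theorem main : ∀ (T : Type) [Finite T], ∀ L ∈ RE T, ∃ G : OneSided T, G.lang = L ∧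
    G.Degree 2 1 ∧ Nat.card G.N = 17 ∧
    {r | (r ∈ G.PL ∨ r ∈ G.PR) ∧ r.2.2 ≠ ∅}.ncard ≤ 16 := by
  rintro T _ L ⟨G, rfl⟩
  refine ⟨GG G, Set.Subset.antisymm (gg_sound G) gg_complete, gg_degree, ?_, gg_count⟩
  show Nat.card NT = 17
  rw [Nat.card_eq_fintype_card]
  decide

/-! ### Reversal -/

/-- reversal of a rule -/
def rr {N : Type} (r : N × List (N ⊕ T) × Finset (List N)) :
    N × List (N ⊕ T) × Finset (List N) :=
  (r.1, r.2.1.reverse, r.2.2.map ⟨List.reverse, List.reverse_injective⟩)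

theorem rr_empty {N : Type} {r : N × List (N ⊕ T) × Finset (List N)} (h : r.2.2 = ∅) :
    (rr r).2.2 = ∅ := by simp [rr, h]

def OneSided.rev (G : OneSided T) : OneSided T where
  N := G.N
  fin := G.fin
  S := G.S
  PL := rr '' G.PR
  PR := rr '' G.PL
  finL := G.finR.image _
  finR := G.finL.image _

theorem free_rev {N : Type} {F : Finset (List N)} {u : List (N ⊕ T)} :
    Free (F.map ⟨List.reverse, List.reverse_injective⟩) u.reverse ↔ Free F u := by
  unfold Free
  simp only [Finset.mem_map, Function.Embedding.coeFn_mk, forall_exists_index, and_imp,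
    forall_apply_eq_imp_iff₂, map_reverse, List.reverse_infix]

theorem free_rev' {N : Type} {F : Finset (List N)} {u : List (N ⊕ T)}
    (h : Free (F.map ⟨List.reverse, List.reverse_injective⟩) u) : Free F u.reverse := by
  rw [← free_rev, reverse_reverse]
  exact h

theorem rev3 {α : Type} (u x v : List α) :
    (u ++ x ++ v).reverse = v.reverse ++ x.reverse ++ u.reverse := by simp

theorem rev3' {α : Type} (u x v : List α) :
    (u ++ x.reverse ++ v).reverse = v.reverse ++ x ++ u.reverse := by simp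

theorem revc {α : Type} (u v : List α) (s : α) :
    (u ++ s :: v).reverse = v.reverse ++ s :: u.reverse := by simp

theorem step_rev {G : OneSided T} {X Y : List (G.N ⊕ T)} (h : G.Step X Y) :
    G.rev.Step X.reverse Y.reverse := by
  obtain ⟨A, x, F, u, v, rfl, rfl, h⟩ := h
  refine ⟨A, x.reverse, F.map ⟨List.reverse, List.reverse_injective⟩, v.reverse, u.reverse,
    revc u v _, rev3 u x v, ?_⟩
  rcases h with ⟨h1, h2⟩ | ⟨h1, h2⟩
  · exact Or.inr ⟨⟨_, h1, rfl⟩, free_rev.2 h2⟩
  · exact Or.inl ⟨⟨_, h1, rfl⟩, free_rev.2 h2⟩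

theorem step_rev' {G : OneSided T} {X Y : List (G.N ⊕ T)} (h : G.rev.Step X Y) :
    G.Step X.reverse Y.reverse := by
  obtain ⟨A, x, F, u, v, rfl, rfl, h⟩ := h
  have key : ∀ P : Set (G.N × List (G.N ⊕ T) × Finset (List G.N)), (A, x, F) ∈ rr '' P →
      ∃ x' F', (A, x', F') ∈ P ∧ x = x'.reverse ∧
        F = F'.map ⟨List.reverse, List.reverse_injective⟩ := by
    rintro P ⟨⟨A', x', F'⟩, h1, h3⟩
    have e1 : A' = A := congrArg Prod.fst h3
    have e2 : x'.reverse = x := congrArg (fun r => r.2.1) h3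
    have e3 : F'.map ⟨List.reverse, List.reverse_injective⟩ = F := congrArg (fun r => r.2.2) h3
    subst e1
    exact ⟨x', F', h1, e2.symm, e3.symm⟩
  rcases h with ⟨h1, h2⟩ | ⟨h1, h2⟩
  · obtain ⟨x', F', h3, rfl, rfl⟩ := key _ h1
    exact ⟨A, x', F', v.reverse, u.reverse, revc u v _, rev3' u x' v, Or.inr ⟨h3, free_rev' h2⟩⟩
  · obtain ⟨x', F', h3, rfl, rfl⟩ := key _ h1
    exact ⟨A, x', F', v.reverse, u.reverse, revc u v _, rev3' u x' v, Or.inl ⟨h3, free_rev' h2⟩⟩

theorem map_rev {N : Type} (S : N) (w : List T) :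
    ([Sum.inl S] : List (N ⊕ T)).reverse = [Sum.inl S] ∧
      (w.map Sum.inr : List (N ⊕ T)).reverse = w.reverse.map Sum.inr := by simp

theorem lang_rev (G : OneSided T) : G.rev.lang = List.reverse '' G.lang := by
  have e1 : ∀ w : List T, ReflTransGen G.Step ([Sum.inl G.S] : List (G.N ⊕ T)).reverse
      (w.map Sum.inr : List (G.N ⊕ T)).reverse → w.reverse ∈ G.lang := by
    intro w h
    rw [(map_rev G.S w).2] at h
    exact h
  have e2 : ∀ w : List T, ReflTransGen G.rev.Step ([Sum.inl G.S] : List (G.N ⊕ T)).reverse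
      (w.map Sum.inr : List (G.N ⊕ T)).reverse → w.reverse ∈ G.rev.lang := by
    intro w h
    rw [(map_rev G.S w).2] at h
    exact h
  ext w
  constructor
  · intro h
    exact ⟨w.reverse, e1 w (ReflTransGen.lift (r := G.rev.Step) (p := G.Step) List.reverse
      (fun _ _ => step_rev') _ _ h), reverse_reverse w⟩
  · rintro ⟨v, h, rfl⟩
    exact e2 v (ReflTransGen.lift (r := G.Step) (p := G.rev.Step) List.reverse
      (fun _ _ => step_rev) _ _ h)

def Type0.rev (G : Type0 T) : Type0 T where
  N := G.N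
  fin := G.fin
  S := G.S
  P := (fun r => (r.1.reverse, r.2.reverse)) '' G.P
  finP := G.finP.image _
  hP := by
    rintro _ ⟨r, hr, rfl⟩
    obtain ⟨A, hA⟩ := G.hP r hr
    exact ⟨A, mem_reverse.2 hA⟩

theorem lang0_rev (G : Type0 T) : G.rev.lang = List.reverse '' G.lang := by
  have h1 : ∀ X Y : List (G.N ⊕ T), G.rev.Step X Y → G.Step X.reverse Y.reverse := by
    rintro X Y ⟨r, ⟨r', hr', rfl⟩, u, v, rfl, rfl⟩
    exact ⟨r', hr', v.reverse, u.reverse, rev3' u r'.1 v, rev3' u r'.2 v⟩
  have h2 : ∀ X Y : List (G.N ⊕ T), G.Step X Y → G.rev.Step X.reverse Y.reverse := by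
    rintro X Y ⟨r, hr, u, v, rfl, rfl⟩
    exact ⟨_, ⟨r, hr, rfl⟩, v.reverse, u.reverse, rev3 u r.1 v, rev3 u r.2 v⟩
  have e1 : ∀ w : List T, ReflTransGen G.Step ([Sum.inl G.S] : List (G.N ⊕ T)).reverse
      (w.map Sum.inr : List (G.N ⊕ T)).reverse → w.reverse ∈ G.lang := by
    intro w h
    rw [(map_rev G.S w).2] at h
    exact h
  have e2 : ∀ w : List T, ReflTransGen G.rev.Step ([Sum.inl G.S] : List (G.N ⊕ T)).reverse
      (w.map Sum.inr : List (G.N ⊕ T)).reverse → w.reverse ∈ G.rev.lang := by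
    intro w h
    rw [(map_rev G.S w).2] at h
    exact h
  ext w
  constructor
  · intro h
    exact ⟨w.reverse, e1 w (ReflTransGen.lift (r := G.rev.Step) (p := G.Step) List.reverse
      h1 _ _ h), reverse_reverse w⟩
  · rintro ⟨v, h, rfl⟩
    exact e2 v (ReflTransGen.lift (r := G.Step) (p := G.rev.Step) List.reverse h2 _ _ h)

theorem main' : ∀ (T : Type) [Finite T], ∀ L ∈ RE T, ∃ G : OneSided T, G.lang = L ∧
    G.Degree 1 2 ∧ Nat.card G.N = 17 ∧
    {r | (r ∈ G.PL ∨ r ∈ G.PR) ∧ r.2.2 ≠ ∅}.ncard ≤ 16 := by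
  rintro T _ L ⟨G0, rfl⟩
  obtain ⟨G, h1, h2, h3, h4⟩ := main T (List.reverse '' G0.lang) ⟨G0.rev, (lang0_rev G0).symm⟩
  refine ⟨G.rev, ?_, ⟨?_, ?_⟩, h3, ?_⟩
  · rw [lang_rev, h1, Set.image_image]
    simp
  · rintro _ ⟨r, hr, rfl⟩ f hf
    obtain ⟨g, hg, rfl⟩ := Finset.mem_map.1 hf
    exact (length_reverse (as := g)).trans_le (h2.2 r hr g hg)
  · rintro _ ⟨r, hr, rfl⟩ f hf
    obtain ⟨g, hg, rfl⟩ := Finset.mem_map.1 hf
    exact (length_reverse (as := g)).trans_le (h2.1 r hr g hg)
  · have hfin : {r | (r ∈ G.PL ∨ r ∈ G.PR) ∧ r.2.2 ≠ ∅}.Finite :=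
      (G.finL.union G.finR).subset fun r hr => hr.1
    refine (Set.ncard_le_ncard (t := rr '' {r | (r ∈ G.PL ∨ r ∈ G.PR) ∧ r.2.2 ≠ ∅}) ?_
      (hfin.image _)).trans ((Set.ncard_image_le hfin).trans h4)
    rintro _ ⟨⟨r, hr, rfl⟩ | ⟨r, hr, rfl⟩, hne⟩
    · exact ⟨r, ⟨Or.inr hr, fun h0 => hne (rr_empty h0)⟩, rfl⟩
    · exact ⟨r, ⟨Or.inl hr, fun h0 => hne (rr_empty h0)⟩, rfl⟩

/-- Every language of a type-0 grammar is generated by a generalized one-sided forbidding grammar
of degree `(2, 1)` with 17 nonterminals and at most 16 rules with nonempty forbidding context, and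
by one of degree `(1, 2)` with the same bounds. -/
theorem result : ∀ (T : Type) [Finite T], ∀ L ∈ RE T,
    (∃ G : OneSided T, G.lang = L ∧ G.Degree 2 1 ∧ Nat.card G.N = 17 ∧
      {r | (r ∈ G.PL ∨ r ∈ G.PR) ∧ r.2.2 ≠ ∅}.ncard ≤ 16) ∧
    (∃ G : OneSided T, G.lang = L ∧ G.Degree 1 2 ∧ Nat.card G.N = 17 ∧
      {r | (r ∈ G.PL ∨ r ∈ G.PR) ∧ r.2.2 ≠ ∅}.ncard ≤ 16) :=
  fun T _ L hL => ⟨main T L hL, main' T L hL⟩

end Pool.Agent.Results.MP_fc15dd_lc.ConstantBounds
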